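import Pool.Agent.L0h65.CW.Nec

/-!
# Clique-width of `H`-induced-topological-minor-free graphs

`CwLE G k`: `G` can be built with `k` labels by the four operations; `cliqueWidth G` is the least such
`k` (both from `Pool.Agent.H175R2.Defs`, where also the graphs `paw` and `diamond` on `Fin 4` are
defined). `ITM H G`: some induced subgraph of `G` is isomorphic to a subdivision of `H`, where the
subdivisions are the graphs obtained by repeatedly subdividing an edge. `BddITM H`: clique-width is
bounded on the class of finite `H`-induced-topological-minor-free graphs.

We prove that `BddITM H` holds if and only if `H` is an induced subgraph of `P₄`, of the paw or of the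
diamond, that is, if and only if `H ⊆ᵢ P₄` or `H` is `K₃`, the paw or the diamond.
-/

set_option autoImplicit false

namespace Pool.Agent.Results.MP_d0d08e_co.Dichotomy

open Pool.Agent.H175R2 Pool.Agent.L0h65.CW

/-- Sanity: the minimum defining the clique-width of a nonempty finite graph is attained. -/
theorem attained {V : Type} [Finite V] [Nonempty V] (G : SimpleGraph V) : CwLE G (cliqueWidth G) :=
  Pool.Agent.R36.cwLE_cliqueWidth G

/-- The full classification. -/
theorem result {W : Type} [Finite W] (H : SimpleGraph W) :
    (∃ c : ℕ, ∀ (V : Type) [Finite V] (G : SimpleGraph V), ¬ ITM H G → cliqueWidth G ≤ c) ↔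
      (H.IsIndContained (SimpleGraph.pathGraph 4) ∨ H.IsIndContained paw ∨
        H.IsIndContained diamond) := by
  refine ⟨fun h => necessity H h, ?_⟩
  rintro (h | h | h)
  · exact bdd_P4.mono h
  · exact bdd_paw.mono h
  · exact bdd_diamond.mono h

end Pool.Agent.Results.MP_d0d08e_co.Dichotomy
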